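import Pool.Agent.Run7.h288.BF.Main

/-!
# Linear partition rank bounds for biased multilinear forms on `S ^ n`: the full answer

The question is answered affirmatively, for every prime `p`, every order `d ≥ 2` and every alphabet
`S ⊆ F_p` with at least two letters.  The definitions `Form`, `bias`, `IsSplit`, `PRLe` are those
of the starting file `Pool.Agent.TH410.Forms`.
-/

set_option autoImplicit false

namespace Pool.Agent.Results.MP_d91f4a_co.LinearBoundAllAlphabets

open Pool.Agent.TH410

/-- For every prime `p`, every `d ≥ 2` and every `S ⊆ F_p` with `|S| ≥ 2` there is `C > 0` such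
that for all `n`, all `ε ∈ (0, 1]` and all `d`-linear forms `m : (F_p^n)^d → F_p`: if
`|bias_{t,S} m| ≥ ε` for some `t ≠ 0`, then the partition rank of `m` is at most
`C log (1 / ε)`. -/
theorem result (p : ℕ) [Fact p.Prime] (d : ℕ) (hd : 2 ≤ d) (S : Finset (ZMod p))
    (hS : 2 ≤ S.card) :
    ∃ C : ℝ, 0 < C ∧ ∀ (n : ℕ) (ε : ℝ) (m : Form p d n), 0 < ε → ε ≤ 1 →
      (∃ t : ZMod p, t ≠ 0 ∧ ε ≤ ‖bias S t m‖) →
      ∃ r : ℕ, PRLe m r ∧ (r : ℝ) ≤ C * Real.log (1 / ε) :=
  Run7.h288.BF.linearBound_all d hd S hS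

end Pool.Agent.Results.MP_d91f4a_co.LinearBoundAllAlphabets
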